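import Pool.Agent.Helper7.OT.Ext
import Pool.Agent.Helper7.OT.IsoTwo
import Pool.Agent.Y368.CB.Core

/-!
MP_6cd513_gt: the maximal volume of affine sections of the cube, and the extremal property of the
cube among products of even log-concave densities.
Author: helper368, on top of the starting library Helper7 (proof of the central case) and the
Prekopa-Leindler inequality of H212R2.
-/

open MeasureTheory Matrix
open scoped ENNReal

namespace Pool.Agent.Results.MP_6cd513_gt.AffineSections

open Pool.Agent.Y368.CB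

/-- The `k`-dimensional volume of the section `Q_n ∩ (v + H)` of the cube
`Q_n = [-1/2, 1/2]^n`; `μHE[k]` is Mathlib's `k`-dimensional Hausdorff measure, normalised so that
it is Lebesgue measure on `k`-dimensional Euclidean spaces. -/
noncomputable def sectionVolume {n : ℕ} (k : ℕ) (H : Submodule ℝ (EuclideanSpace ℝ (Fin n)))
    (v : EuclideanSpace ℝ (Fin n)) : ℝ≥0∞ :=
  μHE[k] {x : EuclideanSpace ℝ (Fin n) | x - v ∈ H ∧ ∀ i, |x i| ≤ 1 / 2}

/-- `V(n,k) = ℓ^((k-r)/2) (ℓ+1)^(r/2)` for `n = k ℓ + r`, `0 ≤ r < k`. -/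
noncomputable def V (n k : ℕ) : ℝ :=
  √(((n / k : ℕ) : ℝ) ^ (k - n % k) * (((n / k : ℕ) : ℝ) + 1) ^ (n % k))

/-- The integral of `x ↦ ∏ i, f i (x i + v i)` over the subspace `H` (with the Lebesgue measure of
the Euclidean space `H`). -/
noncomputable def sectionMass {n : ℕ} (H : Submodule ℝ (EuclideanSpace ℝ (Fin n)))
    (f : Fin n → ℝ → ℝ≥0∞) (v : EuclideanSpace ℝ (Fin n)) : ℝ≥0∞ :=
  ∫⁻ x : H, ∏ i, f i ((x : EuclideanSpace ℝ (Fin n)) i + v i)

open Pool.Agent.Helper7.Simplex in
/-- The central sections (the starting result). -/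
theorem central (n k : ℕ) (hk : 1 ≤ k) (hn : k ≤ n)
    (H : Submodule ℝ (EuclideanSpace ℝ (Fin n))) (hH : Module.finrank ℝ H = k) :
    volume {x : H | ∀ i, |(x : EuclideanSpace ℝ (Fin n)) i| ≤ 1 / 2} ≤ ENNReal.ofReal (V n k) := by
  obtain ⟨u, hu, hvol⟩ := Cube.J21032.geo n k H hH
  have hl : 1 ≤ n / k := (Nat.le_div_iff_mul_le (by omega)).mpr (by omega)
  have hN : n ≤ (n / k + 1) * k := by
    have := Nat.div_add_mod n k
    have h2 := Nat.mod_lt n (show 0 < k by omega)
    nlinarith
  have hdet : (∑ i, vecMulVec (u i) (u i)).det = 1 := by rw [hu, det_one]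
  have hc := OT.J31279.core u (n / k + 1) (by omega) (by rw [Fintype.card_fin]; exact hN)
    (by rw [hdet]; norm_num) (fun m w hdet => J7756.E_factor w hdet)
    (fun A hA Vol h1 h2 => Cube.J21031.C_extremal (fun G hG u => J7756.E_det G hG u) u (n / k + 1)
      (by omega) A hA (by rw [Fintype.card_fin]; exact hN) (by rw [hdet]; norm_num) Vol h1 h2)
    (fun m w hI hc hc' => by
      rcases Nat.lt_or_ge (n / k) 2 with h | h
      · have e : n / k + 1 = 2 := by omega
        rw [e] at hc ⊢
        exact OT.iso2 w hI hc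
      · exact OT.iso3 w hI (n / k + 1) (by omega) hc hc')
  rw [hdet, Real.sqrt_one, ENNReal.ofReal_one, mul_one, Fintype.card_fin] at hc
  rw [hvol]
  refine hc.trans (le_of_eq ?_)
  congr 1
  exact Cube.J21033.numV n k hk (by omega)

/-- The coordinate functionals on `H`. -/
noncomputable def coordL {n : ℕ} (H : Submodule ℝ (EuclideanSpace ℝ (Fin n))) (i : Fin n) :
    H →ₗ[ℝ] ℝ where
  toFun x := (x : EuclideanSpace ℝ (Fin n)) i
  map_add' _ _ := rfl
  map_smul' _ _ := rfl

theorem cube_meas {n : ℕ} (H : Submodule ℝ (EuclideanSpace ℝ (Fin n)))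
    (v : EuclideanSpace ℝ (Fin n)) :
    MeasurableSet {x : H | ∀ i, |(x : EuclideanSpace ℝ (Fin n)) i + v i| ≤ 1 / 2} := by
  have : {x : H | ∀ i, |(x : EuclideanSpace ℝ (Fin n)) i + v i| ≤ 1 / 2} =
      ⋂ i, {x : H | |(x : EuclideanSpace ℝ (Fin n)) i + v i| ≤ 1 / 2} := by
    ext x; simp
  rw [this]
  refine MeasurableSet.iInter fun i => ?_
  refine (isClosed_le ?_ continuous_const).measurableSet
  fun_prop

theorem mass_ind {n : ℕ} (H : Submodule ℝ (EuclideanSpace ℝ (Fin n)))
    (v : EuclideanSpace ℝ (Fin n)) : sectionMass H (fun _ => ind) v =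
      volume {x : H | ∀ i, |(x : EuclideanSpace ℝ (Fin n)) i + v i| ≤ 1 / 2} := by
  rw [← lintegral_indicator_one (cube_meas H v)]
  apply lintegral_congr
  intro x
  by_cases h : x ∈ {x : H | ∀ i, |(x : EuclideanSpace ℝ (Fin n)) i + v i| ≤ 1 / 2}
  · rw [Set.indicator_of_mem h]
    exact Finset.prod_eq_one fun i _ => ind_of_mem (h i)
  · rw [Set.indicator_of_notMem h]
    have h2 : ∃ i, ¬ |(x : EuclideanSpace ℝ (Fin n)) i + v i| ≤ 1 / 2 := by
      by_contra h3
      push Not at h3
      exact h h3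
    obtain ⟨i, hi⟩ := h2
    exact Finset.prod_eq_zero (Finset.mem_univ i) (ind_of_not hi)

/-- Products of even log-concave densities. -/
theorem densities (n k : ℕ) (hk : 1 ≤ k) (hn : k ≤ n)
    (H : Submodule ℝ (EuclideanSpace ℝ (Fin n))) (hH : Module.finrank ℝ H = k)
    (f : Fin n → ℝ → ℝ≥0∞) (hf : ∀ i, Dens (f i)) (v : EuclideanSpace ℝ (Fin n)) :
    sectionMass H f v ≤ ENNReal.ofReal (V n k) := by
  have h1 := compare (volume : Measure H) (coordL H) f hf (fun i => v i)
  have h2 := mass_ind H 0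
  have h3 : sectionMass H (fun _ => ind) 0 = ∫⁻ x : H, ∏ i, ind (coordL H i x) := by
    apply lintegral_congr
    intro x
    apply Finset.prod_congr rfl
    intro i _
    have h5 : (x : EuclideanSpace ℝ (Fin n)) i + (0 : EuclideanSpace ℝ (Fin n)) i
        = coordL H i x := by
      show (x : EuclideanSpace ℝ (Fin n)) i + (0 : ℝ) = (x : EuclideanSpace ℝ (Fin n)) i
      exact add_zero _
    rw [h5]
  have h4 : {x : H | ∀ i, |(x : EuclideanSpace ℝ (Fin n)) i +
      (0 : EuclideanSpace ℝ (Fin n)) i| ≤ 1 / 2} =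
      {x : H | ∀ i, |(x : EuclideanSpace ℝ (Fin n)) i| ≤ 1 / 2} := by
    ext x
    simp
  refine (show sectionMass H f v ≤ _ from h1).trans ?_
  rw [← h3, h2, h4]
  exact central n k hk hn H hH

theorem volume_eq (n k : ℕ) (H : Submodule ℝ (EuclideanSpace ℝ (Fin n)))
    (hH : Module.finrank ℝ H = k) (v : EuclideanSpace ℝ (Fin n)) :
    sectionVolume k H v = sectionMass H (fun _ => ind) v := by
  rw [mass_ind]
  have e : {x : EuclideanSpace ℝ (Fin n) | x - v ∈ H ∧ ∀ i, |x i| ≤ 1 / 2} =
      (fun x : H => (x : EuclideanSpace ℝ (Fin n)) + v) ''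
        {x : H | ∀ i, |(x : EuclideanSpace ℝ (Fin n)) i + v i| ≤ 1 / 2} := by
    ext x
    constructor
    · rintro ⟨hx, h⟩
      refine ⟨⟨x - v, hx⟩, fun i => ?_, sub_add_cancel x v⟩
      have : (x - v) i + v i = x i := by
        show x i - v i + v i = x i
        ring
      show |(x - v) i + v i| ≤ 1 / 2
      rw [this]
      exact h i
    · rintro ⟨y, hy, rfl⟩
      refine ⟨?_, hy⟩
      rw [add_sub_cancel_right]
      exact y.2
  have hiso : Isometry fun x : H => (x : EuclideanSpace ℝ (Fin n)) + v :=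
    (IsometryEquiv.addRight v).isometry.comp isometry_subtype_coe
  unfold sectionVolume
  rw [e, hiso.euclideanHausdorffMeasure_image, ← hH,
    InnerProductSpace.euclideanHausdorffMeasure_eq_volume]

/-- The central section of the cube dominates all products of even log-concave densities. -/
theorem dominates (n k : ℕ) (H : Submodule ℝ (EuclideanSpace ℝ (Fin n)))
    (hH : Module.finrank ℝ H = k) (f : Fin n → ℝ → ℝ≥0∞) (hf : ∀ i, Dens (f i))
    (v : EuclideanSpace ℝ (Fin n)) : sectionMass H f v ≤ sectionVolume k H 0 := by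
  have h1 := compare (volume : Measure H) (coordL H) f hf (fun i => v i)
  have h3 : sectionMass H (fun _ => ind) 0 = ∫⁻ x : H, ∏ i, ind (coordL H i x) := by
    apply lintegral_congr
    intro x
    apply Finset.prod_congr rfl
    intro i _
    have h5 : (x : EuclideanSpace ℝ (Fin n)) i + (0 : EuclideanSpace ℝ (Fin n)) i
        = coordL H i x := by
      show (x : EuclideanSpace ℝ (Fin n)) i + (0 : ℝ) = (x : EuclideanSpace ℝ (Fin n)) i
      exact add_zero _
    rw [h5]
  rw [volume_eq n k H hH, h3]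
  exact h1

/-- (1) Every central section of the unit cube by a `k`-dimensional subspace has volume at most
`V(n,k)` (Q1). (2) So has every affine section `Q_n ∩ (v + H)`, and it is at most the parallel
central section. (3) For all even log-concave functions `f i : ℝ → [0, 1]` with integrals at most
one the integral of `∏ i, f i (x i)` over `v + H` is at most the volume of the central section
`Q_n ∩ H`, hence at most `V(n,k)`. -/
theorem result (n k : ℕ) (hk : 1 ≤ k) (hn : k ≤ n)
    (H : Submodule ℝ (EuclideanSpace ℝ (Fin n))) (hH : Module.finrank ℝ H = k)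
    (v : EuclideanSpace ℝ (Fin n)) :
    sectionVolume k H 0 ≤ ENNReal.ofReal (V n k) ∧
    sectionVolume k H v ≤ sectionVolume k H 0 ∧
    ∀ f : Fin n → ℝ → ℝ≥0∞, (∀ i, Dens (f i)) →
      sectionMass H f v ≤ sectionVolume k H 0 ∧ sectionMass H f v ≤ ENNReal.ofReal (V n k) := by
  have h0 : sectionVolume k H 0 ≤ ENNReal.ofReal (V n k) := by
    rw [volume_eq n k H hH]
    exact densities n k hk hn H hH (fun _ => ind) (fun _ => ind_dens) 0
  refine ⟨h0, ?_, fun f hf => ⟨dominates n k H hH f hf v, (dominates n k H hH f hf v).trans h0⟩⟩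
  rw [volume_eq n k H hH v]
  exact dominates n k H hH (fun _ => ind) (fun _ => ind_dens) v

end Pool.Agent.Results.MP_6cd513_gt.AffineSections
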